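import Pool.Agent.KS6_84.RLim.B

set_option autoImplicit false

open Set Metric Filter Topology MeasureTheory

namespace Pool.Agent.Results.MP_9f272e_an.AlmostFull

/-- `ρ` is a Borel probability measure on the unit sphere of `ℂⁿ` that represents the origin for
the ball algebra. -/
def Represents (n : ℕ) (ρ : Measure (EuclideanSpace ℂ (Fin n))) : Prop :=
  IsProbabilityMeasure ρ ∧ ρ (sphere (0 : EuclideanSpace ℂ (Fin n)) 1)ᶜ = 0 ∧
    ∀ g : EuclideanSpace ℂ (Fin n) → ℂ,
      ContinuousOn g (closedBall (0 : EuclideanSpace ℂ (Fin n)) 1) →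
      DifferentiableOn ℂ g (ball (0 : EuclideanSpace ℂ (Fin n)) 1) → ∫ z, g z ∂ρ = g 0

/-- There is an absolute constant `η > 0` such that for every `n ≥ 2` and every `δ > 0` there are a
holomorphic function `f`, bounded by `1` in the unit ball of `ℂⁿ`, a compact subset `K` of the
unit sphere and a probability measure `ρ` on the sphere that represents the origin for the ball
algebra, with `ρ(K) > 1 - δ`, such that at every point of `K` the modulus of `f` oscillates by more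
than `η` along the radius; in particular `f` has no radial limit at any point of `K`. -/
theorem result : ∃ η : ℝ, 0 < η ∧ ∀ n : ℕ, 2 ≤ n → ∀ δ : ℝ, 0 < δ →
    ∃ (f : EuclideanSpace ℂ (Fin n) → ℂ) (K : Set (EuclideanSpace ℂ (Fin n)))
      (ρ : Measure (EuclideanSpace ℂ (Fin n))),
      DifferentiableOn ℂ f (ball (0 : EuclideanSpace ℂ (Fin n)) 1) ∧
      (∀ z ∈ ball (0 : EuclideanSpace ℂ (Fin n)) 1, ‖f z‖ ≤ 1) ∧
      IsCompact K ∧ K ⊆ sphere (0 : EuclideanSpace ℂ (Fin n)) 1 ∧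
      (∀ ζ ∈ K, ∀ R : ℝ, R < 1 → ∃ r ∈ Ioo R 1, ∃ r' ∈ Ioo R 1,
        ‖f ((r' : ℂ) • ζ)‖ + η < ‖f ((r : ℂ) • ζ)‖) ∧
      (∀ ζ ∈ K, ¬ ∃ L : ℂ, Tendsto (fun r : ℝ => f ((r : ℂ) • ζ)) (𝓝[<] 1) (𝓝 L)) ∧
      Represents n ρ ∧ ENNReal.ofReal (1 - δ) < ρ K := by
  have c0 := Pool.Agent.KS6_84.RLim.c0
  set c := Pool.Agent.H.MP_9f272e_an.c
  have M0 : 0 < 3 + c := by positivity
  have η0 : 0 < c / 4 / (3 + c) := by positivity
  refine ⟨_, η0, fun n hn δ δ0 => ?_⟩
  obtain ⟨m, rfl⟩ := Nat.exists_eq_add_of_le' hn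
  wlog δ1 : δ ≤ 1 generalizing δ
  · obtain ⟨f, K, μ, h1, h2, h3, h4, h5, h6, h7, h8⟩ := this 1 one_pos le_rfl
    exact ⟨f, K, μ, h1, h2, h3, h4, h5, h6, h7, (ENNReal.ofReal_le_ofReal (by linarith)).trans_lt h8⟩
  obtain ⟨f, K, μ, h1, h2, h3, h4, h5, h6, h7, h8⟩ :=
    Pool.Agent.KS6_84.RLim.two (δ := δ / 2) (by positivity)
  let ι : EuclideanSpace ℂ (Fin 2) → EuclideanSpace ℂ (Fin (m + 2)) := fun x =>
    WithLp.toLp 2 (Fin.cons (x 0) (Fin.cons (x 1) 0))
  let p : EuclideanSpace ℂ (Fin (m + 2)) → EuclideanSpace ℂ (Fin 2) := fun z => !₂[z 0, z 1]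
  have nι : ∀ x, ‖ι x‖ = ‖x‖ := fun x => by
    simp only [ι, EuclideanSpace.norm_eq, Fin.sum_univ_succ]
    simp
  have np : ∀ z, ‖p z‖ ≤ ‖z‖ := fun z => by
    simp only [p, EuclideanSpace.norm_eq]
    refine Real.sqrt_le_sqrt ?_
    rw [Fin.sum_univ_succ (n := m + 1), Fin.sum_univ_succ (n := m), Fin.sum_univ_two, ← add_assoc]
    exact le_add_of_nonneg_right (Finset.sum_nonneg fun i _ => by positivity)
  have dι : Differentiable ℂ ι := (differentiable_piLp 2).2 fun i => by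
    refine Fin.cases ?_ (fun i => Fin.cases ?_ (fun i => ?_) i) i <;> simp [ι] <;> fun_prop
  have dp : Differentiable ℂ p := (differentiable_piLp 2).2 fun i => by
    fin_cases i <;> simp [p] <;> fun_prop
  have pι : ∀ (r : ℂ) (x : EuclideanSpace ℂ (Fin 2)), p (r • ι x) = r • x := fun r x => by
    ext i
    fin_cases i <;> simp [p, ι]
  have ι0 : ι 0 = 0 := norm_eq_zero.1 ((nι 0).trans norm_zero)
  have mι : Measurable ι := dι.continuous.measurable
  have osc : ∀ ζ ∈ ι '' (sphere 0 1 ∩ K), ∀ R : ℝ, R < 1 → ∃ r ∈ Ioo R 1, ∃ r' ∈ Ioo R 1,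
        ‖f (p ((r' : ℂ) • ζ)) / ((3 + c : ℝ) : ℂ)‖ + c / 4 / (3 + c) <
          ‖f (p ((r : ℂ) • ζ)) / ((3 + c : ℝ) : ℂ)‖ := by
    rintro _ ⟨x, ⟨x1, x2⟩, rfl⟩ R R1
    obtain ⟨r, hr, r', hr', h⟩ := h4 x x2 (by simpa using x1) R R1
    refine ⟨r, hr, r', hr', ?_⟩
    rw [pι, pι, norm_div, norm_div, Complex.norm_real, Real.norm_of_nonneg M0.le, ← add_div]
    exact div_lt_div_of_pos_right h M0
  have m0 : μ univ = 1 := by
    have := h7 (fun _ => 1) continuousOn_const (differentiableOn_const _)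
    have h9 : μ.real univ = 1 := by
      rw [integral_const] at this
      simpa using this
    rw [← ENNReal.ofReal_toReal (measure_ne_top μ univ)]
    rw [measureReal_def] at h9
    rw [h9, ENNReal.ofReal_one]
  refine ⟨fun z => f (p z) / ((3 + c : ℝ) : ℂ), ι '' (sphere 0 1 ∩ K), μ.map ι, ?_, ?_, ?_, ?_, osc,
    ?_, ⟨?_, ?_, ?_⟩, ?_⟩
  · have h1' : DifferentiableOn ℂ (fun z => f (p z)) (ball 0 1) :=
      h1.comp dp.differentiableOn fun z hz => by
        rw [mem_ball_zero_iff] at hz ⊢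
        exact (np z).trans_lt hz
    simpa only [div_eq_mul_inv] using h1'.mul_const _
  · intro z hz
    rw [norm_div, Complex.norm_real, Real.norm_of_nonneg M0.le, div_le_one M0]
    refine h2 _ ?_
    rw [mem_ball_zero_iff] at hz ⊢
    exact (np z).trans_lt hz
  · exact ((isCompact_sphere _ _).inter_right h3).image dι.continuous
  · rintro _ ⟨x, ⟨x1, -⟩, rfl⟩
    simpa [nι] using x1
  · rintro ζ hζ ⟨L, hL⟩
    obtain ⟨δ', δ1', hδ'⟩ := (nhdsLT_basis (1 : ℝ)).eventually_iff.1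
      (Metric.tendsto_nhds.1 hL (c / 4 / (3 + c) / 2) (by positivity))
    obtain ⟨r, hr, r', hr', h⟩ := osc ζ hζ δ' δ1'
    have e1 := hδ' hr
    have e2 := hδ' hr'
    rw [dist_eq_norm] at e1 e2
    have e3 := norm_sub_norm_le (f (p ((r : ℂ) • ζ)) / ((3 + c : ℝ) : ℂ)) L
    have e4 := norm_sub_norm_le L (f (p ((r' : ℂ) • ζ)) / ((3 + c : ℝ) : ℂ))
    rw [norm_sub_rev] at e4
    linarith
  · exact ⟨by rw [Measure.map_apply mι MeasurableSet.univ, preimage_univ, m0]⟩
  · rw [Measure.map_apply mι isClosed_sphere.measurableSet.compl]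
    refine measure_mono_null (fun x hx => ?_) h6
    simpa [nι] using hx
  · intro g g1 g2
    have sp : ∀ᵐ z ∂μ.map ι, z ∈ closedBall (0 : EuclideanSpace ℂ (Fin (m + 2))) 1 := by
      rw [ae_iff]
      refine measure_mono_null (t := (sphere (0 : EuclideanSpace ℂ (Fin (m + 2))) 1)ᶜ)
        (fun z hz hz' => hz (sphere_subset_closedBall hz')) ?_
      rw [Measure.map_apply mι isClosed_sphere.measurableSet.compl]
      refine measure_mono_null (fun x hx => ?_) h6
      simpa [nι] using hx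
    have ms : AEStronglyMeasurable g (μ.map ι) := by
      have := (g1.aestronglyMeasurable (μ := μ.map ι) isClosed_closedBall.measurableSet)
      rwa [Measure.restrict_eq_self_of_ae_mem sp] at this
    rw [integral_map mι.aemeasurable ms]
    rw [h7 (fun x => g (ι x)) (g1.comp dι.continuous.continuousOn fun x hx => by simpa [nι] using hx)
      (g2.comp dι.differentiableOn fun x hx => by simpa [nι] using hx), ι0]
  · refine lt_of_lt_of_le ?_ (h8.trans ?_)
    · exact (ENNReal.ofReal_lt_ofReal_iff (by linarith)).2 (by linarith)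
    · rw [Measure.map_apply mι ((isCompact_sphere _ _).inter_right h3 |>.image dι.continuous).isClosed.measurableSet]
      exact measure_mono fun x hx => ⟨x, hx, rfl⟩

end Pool.Agent.Results.MP_9f272e_an.AlmostFull
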